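import Pool.Agent.H83.HK.Low

set_option autoImplicit false
set_option linter.dupNamespace false

/-!
# The lower bound: the module of the orbits embeds in every faithful module
-/

namespace Pool.Agent.H83.HK

open Pool.Agent.H3.HK
open scoped Classical

variable {V : Type} {M : CoxeterMatrix V}

section

variable {K : Type} [Field K] {d : ℕ} (φ : HK (adj M) →ₙ* Matrix (Fin d) (Fin d) K)

theorem exists_vec {g h : HK (adj M)} (hφ : Function.Injective φ) (hgh : g ≠ h) :
    ∃ v : Fin d → K, (φ g).mulVec v ≠ (φ h).mulVec v := by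
  by_contra hcon
  push Not at hcon
  refine hgh (hφ ?_)
  exact Matrix.mulVec_injective (funext hcon)

/-- the vector of a basis element -/
noncomputable def vec (w : HK (adj M)) (rep : V → (V → ℤ) → HK (adj M)) (v : V → Fin d → K)
    (i : V) (x : V → ℤ) : Fin d → K :=
  (φ (rep i x)).mulVec (v i) - (φ w).mulVec (v i)

theorem lower (hM : SL M) [Fintype V] [Finite M.Group] (hφ : Function.Injective φ) :
    ∑ i, ((parW M i).index - 1) ≤ d := by
  have hfin : Finite (HK (adj M)) := finite_HK hM
  obtain ⟨w, hw⟩ := exists_LZ hM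
  have hB : Finite (BB w) := finite_BB hM w
  have : Fintype (BB w) := Fintype.ofFinite _
  obtain ⟨σ, hσ, hz⟩ := zero_perm hM hw
  choose p hp hpz using exists_par_zero hM
  -- representatives
  have hrep : ∀ i x, ∃ a : HK (adj M), x ∈ XX M i → a * p i = a ∧ cl a i = x := by
    intro i x
    by_cases hx : x ∈ XX M i
    · obtain ⟨g, rfl⟩ := hx
      refine ⟨g * p i, fun _ => ⟨?_, ?_⟩⟩
      · rw [mul_assoc, hpz i (p i) (hp i)]
      · simp only [cl]
        rw [act_mul, act_par (hp i)]
    · exact ⟨1, fun h => absurd h hx⟩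
  choose rep hrep using hrep
  have huniq : ∀ i (a : HK (adj M)), a * p i = a → a = rep i (cl a i) := fun i a ha => by
    obtain ⟨h1, h2⟩ := hrep i (cl a i) ⟨a, rfl⟩
    exact coset_unique hM i (hp i) (hpz i) _ a _ rfl ha h1 h2.symm
  have hwz : ∀ i, rep i (cl w i) = w := fun i => (huniq i w (hw.mul_right _)).symm
  -- socle elements
  have hu : ∀ i, rfl' (gr M) (σ i) (cl w i) ∈ XX M i := fun i => rfl_mem hM ⟨w, rfl⟩ _
  have hune : ∀ i, rep i (rfl' (gr M) (σ i) (cl w i)) ≠ w := by
    intro i h
    have h1 := (hrep i _ (hu i)).2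
    rw [h] at h1
    have h2 := congrFun h1 (σ i)
    rw [rfl_self, hz i] at h2
    simp [om] at h2
  choose v hv using fun i => exists_vec φ hφ (hune i)
  have vec_act : ∀ (g : HK (adj M)) i x, x ∈ XX M i →
      (φ g).mulVec (vec φ w rep v i x) = vec φ w rep v i (actM M g x) := by
    intro g i x hx
    obtain ⟨h1, h2⟩ := hrep i x hx
    have h3 : g * rep i x = rep i (actM M g x) := by
      have h4 := huniq i (g * rep i x) (by rw [mul_assoc, h1])
      have h5 : cl (g * rep i x) i = actM M g x := by
        rw [cl, act_mul]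
        exact congrArg (actM M g) h2
      rw [h4, h5]
    rw [vec, Matrix.mulVec_sub, Matrix.mulVec_mulVec, Matrix.mulVec_mulVec, ← map_mul, ← map_mul,
      h3, hw.mul g, vec]
  have vec_z : ∀ i, vec φ w rep v i (cl w i) = 0 := fun i => by rw [vec, hwz, sub_self]
  -- the linear map
  let F : (BB w → K) →ₗ[K] (Fin d → K) :=
    { toFun := fun y => ∑ b, y b • vec φ w rep v b.1 b.2.1
      map_add' := fun y y' => by
        rw [← Finset.sum_add_distrib]
        exact Finset.sum_congr rfl fun b _ => by rw [Pi.add_apply, add_smul]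
      map_smul' := fun c y => by
        rw [RingHom.id_apply, Finset.smul_sum]
        exact Finset.sum_congr rfl fun b _ => by rw [Pi.smul_apply, smul_assoc] }
  have hF : ∀ y, F y = ∑ b, y b • vec φ w rep v b.1 b.2.1 := fun y => rfl
  have hFact : ∀ (g : HK (adj M)) y, (φ g).mulVec (F y) = F ((mat K (w := w) g).mulVec y) := by
    intro g y
    rw [hF, hF, Matrix.mulVec_sum]
    have e1 : ∀ c : BB w, (mat K (w := w) g).mulVec y c • vec φ w rep v c.1 c.2.1 =
        ∑ b, (mat K (w := w) g c b * y b) • vec φ w rep v c.1 c.2.1 := fun c => by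
      rw [← Finset.sum_smul]; rfl
    rw [Finset.sum_congr rfl fun c _ => e1 c, Finset.sum_comm]
    refine Finset.sum_congr rfl fun b _ => ?_
    rw [Matrix.mulVec_smul, vec_act g _ _ b.2.2.1]
    by_cases hzb : actM M g b.2.1 = cl w b.1
    · rw [hzb, vec_z, smul_zero, Finset.sum_eq_zero]
      intro c _
      have : mat K (w := w) g c b = 0 := if_neg (by
        rintro ⟨h1, h2⟩
        exact c.2.2.2 (by rw [← h2, hzb, h1]))
      rw [this, zero_mul, zero_smul]
    · let c0 : BB w := ⟨b.1, actM M g b.2.1, act_XX b.2.2.1 g, hzb⟩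
      rw [Finset.sum_eq_single c0]
      · have : mat K (w := w) g c0 b = 1 := if_pos ⟨rfl, rfl⟩
        rw [this, one_mul]
      · intro c _ hc
        have : mat K (w := w) g c b = 0 := if_neg (by
          rintro ⟨h1, h2⟩
          exact hc (BB_ext h1 h2.symm))
        rw [this, zero_mul, zero_smul]
      · intro hh; exact absurd (Finset.mem_univ c0) hh
  have hinj : ∀ y, F y = 0 → y = 0 := by
    intro y hy
    by_contra hne
    have hmat1 : (mat K (w := w) (1 : HK (adj M))).mulVec y = y := by
      funext c
      rw [Matrix.mulVec, dotProduct, Finset.sum_eq_single c]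
      · have : mat K (w := w) (1 : HK (adj M)) c c = 1 := if_pos ⟨rfl, by rw [map_one]; rfl⟩
        rw [this, one_mul]
      · intro b _ hb
        have : mat K (w := w) (1 : HK (adj M)) c b = 0 := if_neg (by
          rintro ⟨h1, h2⟩
          rw [map_one] at h2
          exact hb (BB_ext h1.symm h2))
        rw [this, zero_mul]
      · intro hh; exact absurd (Finset.mem_univ c) hh
    have : Fintype (HK (adj M)) := Fintype.ofFinite _
    have hS : (Finset.univ.filter fun g : HK (adj M) =>
        (mat K (w := w) g).mulVec y ≠ 0).Nonempty :=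
      ⟨1, by rw [Finset.mem_filter, hmat1]; exact ⟨Finset.mem_univ _, hne⟩⟩
    obtain ⟨g, hg, hmax⟩ := Finset.exists_max_image _ (fun g => len hM g) hS
    rw [Finset.mem_filter] at hg
    have hg2 := hg.2
    obtain ⟨c, hc⟩ : ∃ c, (mat K (w := w) g).mulVec y c ≠ 0 := by
      by_contra hcon
      push Not at hcon
      exact hg2 (funext hcon)
    have hj : ∀ j, (mat K (w := w) (gen (adj M) j)).mulVec ((mat K (w := w) g).mulVec y) =
        (mat K (w := w) (gen (adj M) j * g)).mulVec y := fun j => by
      rw [mat_mul hw, Matrix.mulVec_mulVec]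
    obtain ⟨h1, h2⟩ := eigen hM hw hσ hz (fun j => PP g j) ((mat K (w := w) g).mulVec y)
      (fun j hJ => by
        rw [hj]
        by_contra hcon
        have := hmax (gen (adj M) j * g) (by
          rw [Finset.mem_filter]; exact ⟨Finset.mem_univ _, hcon⟩)
        simp only [PP_len hM hJ] at this
        omega)
      (fun j hJ => by
        rw [hj]
        rcases PP_or_NN hM g j with h | h
        · exact absurd h hJ
        · rw [NN_fix hM h]) c hc
    have h3 : F ((mat K (w := w) g).mulVec y) = 0 := by
      rw [← hFact, hy, Matrix.mulVec_zero]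
    rw [hF, Finset.sum_eq_single c, h2] at h3
    · rcases smul_eq_zero.1 h3 with h | h
      · exact hc h
      · rw [vec, sub_eq_zero] at h
        exact hv _ h
    · intro b _ hb
      have : (mat K (w := w) g).mulVec y b = 0 := by
        by_contra hcon
        exact hb (h1 b hcon)
      rw [this, zero_smul]
    · intro hh; exact absurd (Finset.mem_univ c) hh
  have hker : LinearMap.ker F = ⊥ := (LinearMap.ker_eq_bot').2 hinj
  have hle := LinearMap.finrank_le_finrank_of_injective (LinearMap.ker_eq_bot.1 hker)
  rw [Module.finrank_pi, Module.finrank_pi, Fintype.card_fin, ← Nat.card_eq_fintype_card,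
    card_BB hM w] at hle
  exact hle

end

end Pool.Agent.H83.HK
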