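import Mathlib

set_option autoImplicit false
set_option linter.dupNamespace false

/-!
# The numbers game of a simple graph: the core lemma on signs
-/

namespace Pool.Agent.H83.HK

open scoped Classical

variable {V : Type} (Γ : SimpleGraph V)

/-- the simple reflection on `V → ℤ` (fundamental weights coordinates) -/
noncomputable def rfl' (j : V) (x : V → ℤ) : V → ℤ :=
  fun k => if k = j then - x j else if Γ.Adj j k then x k + x j else x k

/-- the one-sided move -/
noncomputable def push (j : V) (x : V → ℤ) : V → ℤ := if 0 < x j then rfl' Γ j x else x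

/-- the unit vectors -/
noncomputable def om (i : V) : V → ℤ := fun j => if j = i then 1 else 0

variable {Γ}

theorem rfl_self (j : V) (x : V → ℤ) : rfl' Γ j x j = - x j := by simp [rfl']

theorem rfl_adj {j k : V} (h : Γ.Adj j k) (x : V → ℤ) : rfl' Γ j x k = x k + x j := by
  simp [rfl', h, h.ne']

theorem rfl_not {j k : V} (h : k ≠ j) (h' : ¬ Γ.Adj j k) (x : V → ℤ) : rfl' Γ j x k = x k := by
  simp [rfl', h, h']

theorem rfl_rfl (j : V) (x : V → ℤ) : rfl' Γ j (rfl' Γ j x) = x := by
  funext k
  by_cases h : k = j
  · subst h; simp [rfl']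
  · by_cases h' : Γ.Adj j k
    · simp [rfl', h, h']
    · simp [rfl', h, h']

theorem rfl_zero {j : V} {x : V → ℤ} (h : x j = 0) : rfl' Γ j x = x := by
  funext k
  by_cases h1 : k = j
  · subst h1; simp [rfl', h]
  · by_cases h' : Γ.Adj j k
    · simp [rfl', h1, h', h]
    · simp [rfl', h1, h']

theorem rfl_comm {j k : V} (hn : j ≠ k) (h : ¬ Γ.Adj j k) (x : V → ℤ) :
    rfl' Γ j (rfl' Γ k x) = rfl' Γ k (rfl' Γ j x) := by
  have h' : ¬ Γ.Adj k j := fun t => h t.symm
  funext m
  by_cases h1 : m = j
  · subst h1
    simp [rfl', hn, hn.symm, h, h']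
  · by_cases h2 : m = k
    · subst h2
      simp [rfl', hn, hn.symm, h, h']
    · simp only [rfl', h1, h2, if_false, hn, hn.symm, h, h']
      split_ifs <;> ring

theorem rfl_braid {j k : V} (h : Γ.Adj j k) (x : V → ℤ) :
    rfl' Γ j (rfl' Γ k (rfl' Γ j x)) = rfl' Γ k (rfl' Γ j (rfl' Γ k x)) := by
  have h' : Γ.Adj k j := h.symm
  have hn := h.ne
  have hn' := h.ne'
  funext m
  by_cases h1 : m = j
  · subst h1
    simp [rfl', hn, h', h, hn']
  · by_cases h2 : m = k
    · subst h2
      simp [rfl', hn, h', h, hn']
    · simp only [rfl', h1, h2, if_false, hn, hn', h, h', if_true]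
      split_ifs <;> ring

theorem push_pos {j : V} {x : V → ℤ} (h : 0 ≤ x j) : push Γ j x = rfl' Γ j x := by
  rcases h.lt_or_eq with h | h
  · simp [push, h]
  · rw [rfl_zero h.symm, push, if_neg (by rw [← h]; exact lt_irrefl 0)]

theorem push_neg {j : V} {x : V → ℤ} (h : x j ≤ 0) : push Γ j x = x := by
  rw [push, if_neg (not_lt.2 h)]

theorem push_self (j : V) (x : V → ℤ) : push Γ j x j ≤ 0 := by
  rcases le_total 0 (x j) with h | h
  · rw [push_pos h, rfl_self]; omega
  · rw [push_neg h]; exact h

theorem push_idem (j : V) (x : V → ℤ) : push Γ j (push Γ j x) = push Γ j x :=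
  push_neg (push_self j x)

theorem push_comm {j k : V} (hn : j ≠ k) (h : ¬ Γ.Adj j k) (x : V → ℤ) :
    push Γ j (push Γ k x) = push Γ k (push Γ j x) := by
  have h' : ¬ Γ.Adj k j := fun t => h t.symm
  rcases le_total 0 (x j) with hj | hj <;> rcases le_total 0 (x k) with hk | hk
  · rw [push_pos hk, push_pos hj, push_pos (by rwa [rfl_not hn h']),
      push_pos (by rwa [rfl_not hn.symm h]), rfl_comm hn h]
  · rw [push_neg hk, push_pos hj, push_neg (by rwa [rfl_not hn.symm h])]
  · rw [push_pos hk, push_neg hj, push_neg (by rwa [rfl_not hn h']), push_pos hk]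
  · rw [push_neg hk, push_neg hj, push_neg hk]

theorem push_braid {j k : V} (h : Γ.Adj j k) (x : V → ℤ) :
    push Γ j (push Γ k (push Γ j x)) = push Γ k (push Γ j (push Γ k x)) := by
  have h' : Γ.Adj k j := h.symm
  rcases le_total 0 (x j) with hj | hj <;> rcases le_total 0 (x k) with hk | hk
  · rw [push_pos hj, push_pos (x := rfl' Γ j x) (j := k) (by rw [rfl_adj h]; omega),
      push_pos (j := j) (x := rfl' Γ k (rfl' Γ j x))
        (by rw [rfl_adj h', rfl_self, rfl_adj h]; omega),
      push_pos hk, push_pos (x := rfl' Γ k x) (j := j) (by rw [rfl_adj h']; omega),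
      push_pos (j := k) (x := rfl' Γ j (rfl' Γ k x))
        (by rw [rfl_adj h, rfl_self, rfl_adj h']; omega), rfl_braid h]
  · rcases le_total 0 (x k + x j) with hs | hs
    · rw [push_pos hj, push_pos (x := rfl' Γ j x) (j := k) (by rw [rfl_adj h]; omega),
        push_neg (j := j) (x := rfl' Γ k (rfl' Γ j x))
          (by rw [rfl_adj h', rfl_self, rfl_adj h]; omega),
        push_neg hk, push_pos hj, push_pos (x := rfl' Γ j x) (j := k) (by rw [rfl_adj h]; omega)]
    · rw [push_pos hj, push_neg (x := rfl' Γ j x) (j := k) (by rw [rfl_adj h]; omega),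
        push_neg (j := j) (x := rfl' Γ j x) (by rw [rfl_self]; omega),
        push_neg hk, push_pos hj, push_neg (x := rfl' Γ j x) (j := k) (by rw [rfl_adj h]; omega)]
  · rcases le_total 0 (x j + x k) with hs | hs
    · rw [push_neg hj, push_pos hk, push_pos (x := rfl' Γ k x) (j := j) (by rw [rfl_adj h']; omega),
        push_neg (j := k) (x := rfl' Γ j (rfl' Γ k x))
          (by rw [rfl_adj h, rfl_self, rfl_adj h']; omega)]
    · rw [push_neg hj, push_pos hk, push_neg (x := rfl' Γ k x) (j := j) (by rw [rfl_adj h']; omega),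
        push_neg (j := k) (x := rfl' Γ k x) (by rw [rfl_self]; omega)]
  · rw [push_neg hj, push_neg hk, push_neg hj, push_neg hk]

/-- the image of the unit vector `om i` under the word `l` -/
noncomputable def col (Γ : SimpleGraph V) (l : List V) (i : V) : V → ℤ :=
  l.foldr (rfl' Γ) (om i)

@[simp] theorem col_nil (i : V) : col Γ [] i = om i := List.foldr_nil

@[simp] theorem col_cons (k : V) (l : List V) (i : V) :
    col Γ (k :: l) i = rfl' Γ k (col Γ l i) := List.foldr_cons

/-- row `j` of the matrix of `l` is nonnegative and not zero -/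
def Pos (Γ : SimpleGraph V) (l : List V) (j : V) : Prop :=
  (∀ i, 0 ≤ col Γ l i j) ∧ ∃ i, 0 < col Γ l i j

/-- row `j` of the matrix of `l` is nonpositive and not zero -/
def Neg (Γ : SimpleGraph V) (l : List V) (j : V) : Prop :=
  (∀ i, col Γ l i j ≤ 0) ∧ ∃ i, col Γ l i j < 0

theorem not_pos_neg {l : List V} {j : V} (h : Pos Γ l j) (h' : Neg Γ l j) : False := by
  obtain ⟨i, hi⟩ := h.2
  exact absurd (h'.1 i) (not_le.2 hi)

/-- reduced words -/
def Red (Γ : SimpleGraph V) : List V → Prop
  | [] => True
  | k :: l => Red Γ l ∧ Pos Γ l k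

theorem pos_nil (j : V) : Pos Γ [] j := by
  refine ⟨fun i => ?_, j, ?_⟩
  · rw [col_nil, om]; split_ifs <;> norm_num
  · simp [om]

theorem neg_cons {l : List V} {j : V} (h : Pos Γ l j) : Neg Γ (j :: l) j := by
  refine ⟨fun i => ?_, ?_⟩
  · rw [col_cons, rfl_self]; have := h.1 i; omega
  · obtain ⟨i, hi⟩ := h.2
    exact ⟨i, by rw [col_cons, rfl_self]; omega⟩

/-- a monoid with generators which satisfy the braid relations and act by reflections -/
structure Good (Γ : SimpleGraph V) {G : Type} [Monoid G] (f : V → G)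
    (ρ : G →* Function.End (V → ℤ)) : Prop where
  comm : ∀ j k, j ≠ k → ¬ Γ.Adj j k → f j * f k = f k * f j
  braid : ∀ j k, Γ.Adj j k → f j * f k * f j = f k * f j * f k
  act : ∀ j x, ρ (f j) x = rfl' Γ j x

variable {G : Type} [Monoid G] {f : V → G} {ρ : G →* Function.End (V → ℤ)}

theorem Good.col_eq (hG : Good Γ f ρ) (l : List V) (i : V) :
    col Γ l i = ρ (l.map f).prod (om i) := by
  induction l with
  | nil => simp; rfl
  | cons k l ih =>
    rw [col_cons, ih, List.map_cons, List.prod_cons, map_mul]
    exact (hG.act k _).symm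

theorem Good.col_of_eq (hG : Good Γ f ρ) {l l1 : List V} {j : V}
    (h : (l.map f).prod = f j * (l1.map f).prod) (i : V) :
    col Γ l i = rfl' Γ j (col Γ l1 i) := by
  rw [hG.col_eq, hG.col_eq, h, map_mul]
  exact hG.act j _

/-- **Core lemma.** -/
theorem core (hG : Good Γ f ρ) (n : ℕ) : ∀ l : List V, l.length = n → Red Γ l → ∀ j : V,
    Pos Γ l j ∨ (Neg Γ l j ∧ ∃ l1 : List V, l1.length + 1 = l.length ∧ Red Γ l1 ∧ Pos Γ l1 j ∧
      (l.map f).prod = f j * (l1.map f).prod) := by
  induction n using Nat.strong_induction_on with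
  | _ n ih =>
    intro l hl hr j
    cases l with
    | nil => exact Or.inl (pos_nil j)
    | cons k l2 =>
      have hr2 : Red Γ l2 := hr.1
      have hp2 : Pos Γ l2 k := hr.2
      have hlen : l2.length + 1 = n := by simpa using hl
      by_cases hjk : j = k
      · subst hjk
        exact Or.inr ⟨neg_cons hp2, l2, by simp, hr2, hp2, by simp⟩
      by_cases hadj : Γ.Adj k j
      · have e1 : ∀ i, col Γ (k :: l2) i j = col Γ l2 i j + col Γ l2 i k := fun i => by
          rw [col_cons, rfl_adj hadj]
        rcases ih l2.length (by omega) l2 rfl hr2 j with h | ⟨hneg, l3, hl3, hr3, hp3, he3⟩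
        · left
          refine ⟨fun i => ?_, ?_⟩
          · rw [e1]; have := h.1 i; have := hp2.1 i; omega
          · obtain ⟨i, hi⟩ := h.2
            exact ⟨i, by rw [e1]; have := hp2.1 i; omega⟩
        · have c2 := fun i => hG.col_of_eq he3 i
          have c2j : ∀ i, col Γ l2 i j = - col Γ l3 i j := fun i => by rw [c2 i, rfl_self]
          have c2k : ∀ i, col Γ l2 i k = col Γ l3 i k + col Γ l3 i j := fun i => by
            rw [c2 i, rfl_adj hadj.symm]
          have e2 : ∀ i, col Γ (k :: l2) i j = col Γ l3 i k := fun i => by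
            rw [e1, c2j, c2k]; ring
          rcases ih l3.length (by omega) l3 rfl hr3 k with h | ⟨hneg3, l4, hl4, hr4, hp4, he4⟩
          · left
            refine ⟨fun i => ?_, ?_⟩
            · rw [e2]; exact h.1 i
            · obtain ⟨i, hi⟩ := h.2
              exact ⟨i, by rw [e2]; exact hi⟩
          · right
            have c3 := fun i => hG.col_of_eq he4 i
            have c3k : ∀ i, col Γ l3 i k = - col Γ l4 i k := fun i => by rw [c3 i, rfl_self]
            have c3j : ∀ i, col Γ l3 i j = col Γ l4 i j + col Γ l4 i k := fun i => by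
              rw [c3 i, rfl_adj hadj]
            have hp4j : Pos Γ l4 j := by
              refine ⟨fun i => ?_, ?_⟩
              · have := hp2.1 i; rw [c2k, c3k, c3j] at this; omega
              · obtain ⟨i, hi⟩ := hp2.2
                exact ⟨i, by rw [c2k, c3k, c3j] at hi; omega⟩
            have hp4k : Pos Γ (j :: l4) k := by
              refine ⟨fun i => ?_, ?_⟩
              · rw [col_cons, rfl_adj hadj.symm]
                have := hp3.1 i; rw [c3j] at this; omega
              · obtain ⟨i, hi⟩ := hp3.2
                refine ⟨i, ?_⟩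
                rw [col_cons, rfl_adj hadj.symm]
                rw [c3j] at hi; omega
            refine ⟨⟨fun i => ?_, ?_⟩, k :: j :: l4, ?_, ⟨⟨hr4, hp4j⟩, hp4k⟩, ?_, ?_⟩
            · rw [e2]; exact hneg3.1 i
            · obtain ⟨i, hi⟩ := hneg3.2
              exact ⟨i, by rw [e2]; exact hi⟩
            · simp only [List.length_cons]; omega
            · refine ⟨fun i => ?_, ?_⟩
              · rw [col_cons, rfl_adj hadj, col_cons, rfl_self, rfl_adj hadj.symm]
                have := hp4.1 i; omega
              · obtain ⟨i, hi⟩ := hp4.2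
                refine ⟨i, ?_⟩
                rw [col_cons, rfl_adj hadj, col_cons, rfl_self, rfl_adj hadj.symm]
                omega
            · rw [List.map_cons, List.prod_cons, he3, he4, List.map_cons, List.prod_cons,
                List.map_cons, List.prod_cons, ← mul_assoc, ← mul_assoc, hG.braid k j hadj]
              simp only [mul_assoc]
      · have hadj' : ¬ Γ.Adj j k := fun t => hadj t.symm
        have e1 : ∀ i, col Γ (k :: l2) i j = col Γ l2 i j := fun i => by
          rw [col_cons, rfl_not hjk hadj]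
        rcases ih l2.length (by omega) l2 rfl hr2 j with h | ⟨hneg, l3, hl3, hr3, hp3, he3⟩
        · left
          refine ⟨fun i => ?_, ?_⟩
          · rw [e1]; exact h.1 i
          · obtain ⟨i, hi⟩ := h.2
            exact ⟨i, by rw [e1]; exact hi⟩
        · right
          have c2 := fun i => hG.col_of_eq he3 i
          have c2k : ∀ i, col Γ l2 i k = col Γ l3 i k := fun i => by
            rw [c2 i, rfl_not (fun t => hjk t.symm) hadj']
          have hp3k : Pos Γ l3 k := by
            refine ⟨fun i => ?_, ?_⟩
            · have := hp2.1 i; rwa [c2k] at this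
            · obtain ⟨i, hi⟩ := hp2.2
              exact ⟨i, by rwa [c2k] at hi⟩
          refine ⟨⟨fun i => ?_, ?_⟩, k :: l3, ?_, ⟨hr3, hp3k⟩, ?_, ?_⟩
          · rw [e1]; exact hneg.1 i
          · obtain ⟨i, hi⟩ := hneg.2
            exact ⟨i, by rw [e1]; exact hi⟩
          · simp only [List.length_cons]; omega
          · refine ⟨fun i => ?_, ?_⟩
            · rw [col_cons, rfl_not hjk hadj]; exact hp3.1 i
            · obtain ⟨i, hi⟩ := hp3.2
              exact ⟨i, by rw [col_cons, rfl_not hjk hadj]; exact hi⟩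
          · rw [List.map_cons, List.prod_cons, he3, List.map_cons, List.prod_cons, ← mul_assoc,
              ← mul_assoc, hG.comm k j (fun t => hjk t.symm) hadj]

theorem pos_or_neg (hG : Good Γ f ρ) {l : List V} (hr : Red Γ l) (j : V) :
    Pos Γ l j ∨ Neg Γ l j := by
  rcases core hG _ l rfl hr j with h | h
  · exact Or.inl h
  · exact Or.inr h.1

theorem exch (hG : Good Γ f ρ) {l : List V} (hr : Red Γ l) {j : V} (h : Neg Γ l j) :
    ∃ l1 : List V, l1.length + 1 = l.length ∧ Red Γ l1 ∧ Pos Γ l1 j ∧
      (l.map f).prod = f j * (l1.map f).prod := by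
  rcases core hG _ l rfl hr j with h1 | h1
  · exact (not_pos_neg h1 h).elim
  · exact h1.2

theorem red_unique (hG : Good Γ f ρ) (n : ℕ) : ∀ l l' : List V, l.length = n → Red Γ l →
    Red Γ l' → (∀ i, col Γ l i = col Γ l' i) → l.length = l'.length ∧
      (l.map f).prod = (l'.map f).prod := by
  induction n with
  | zero =>
    intro l l' hl hr hr' hc
    have : l = [] := List.length_eq_zero_iff.1 hl
    subst this
    cases l' with
    | nil => exact ⟨rfl, rfl⟩
    | cons k l'' =>
      exfalso
      have h1 : Pos Γ (k :: l'') k := by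
        have := pos_nil (Γ := Γ) k
        simp only [Pos] at this ⊢
        simpa only [hc] using this
      exact not_pos_neg h1 (neg_cons hr'.2)
  | succ n ih =>
    intro l l' hl hr hr' hc
    cases l with
    | nil => simp at hl
    | cons k l2 =>
      have hneg : Neg Γ l' k := by
        have := neg_cons hr.2
        simp only [Neg] at this ⊢
        simpa only [hc] using this
      obtain ⟨l1, h1, h2, h3, h4⟩ := exch hG hr' hneg
      have h5 := ih l2 l1 (by simpa using hl) hr.1 h2 fun i => by
        have e1 := hc i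
        rw [hG.col_of_eq h4 i, col_cons] at e1
        have := congrArg (rfl' Γ k) e1
        rwa [rfl_rfl, rfl_rfl] at this
      refine ⟨by rw [← h1, List.length_cons, h5.1], ?_⟩
      rw [h4, List.map_cons, List.prod_cons, h5.2]

end Pool.Agent.H83.HK
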