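import Pool.Agent.H83.HK.Orb

set_option autoImplicit false
set_option linter.dupNamespace false

/-!
# The orbits of the monoid are the orbits of the Coxeter group
-/

namespace Pool.Agent.H83.HK

open Pool.Agent.H3.HK
open scoped Classical

variable {V : Type} {M : CoxeterMatrix V}

/-- the orbit of the fundamental weight `om i` under the monoid -/
def XX (M : CoxeterMatrix V) (i : V) : Set (V → ℤ) :=
  Set.range (fun g : HK (adj M) => cl g i)

/-- the parabolic subgroup generated by the simple reflections different from `i` -/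
def parW (M : CoxeterMatrix V) (i : V) : Subgroup M.Group :=
  Subgroup.closure (M.simple '' {j | j ≠ i})

theorem linW_mul_simple (hM : SL M) (k : V) (w : M.Group) (x : V → ℤ) :
    linW hM (M.simple k * w) x = rfl' (gr M) k (linW hM w x) := by
  rw [map_mul, linW_simple]; rfl

/-- induction on the Coxeter group -/
theorem W_induction {p : M.Group → Prop} (w : M.Group) (one : p 1)
    (mul : ∀ w k, p w → p (M.simple k * w)) : p w :=
  M.toCoxeterSystem.simple_induction_left w one mul

theorem linW_mem (hM : SL M) (i : V) (w : M.Group) : linW hM w (om i) ∈ XX M i := by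
  refine W_induction (p := fun w => linW hM w (om i) ∈ XX M i) w ?_ ?_
  · rw [map_one]
    exact ⟨1, cl_one i⟩
  · rintro w k ⟨g, hg⟩
    simp only at hg
    rw [linW_mul_simple, ← hg]
    rcases PP_or_NN hM g k with h | h
    · exact ⟨gen (adj M) k * g, PP_cl h i⟩
    · obtain ⟨g1, h1, h2, -⟩ := NN_exch hM h
      exact ⟨g1, cl_exch hM h1 h2 i⟩

theorem mem_linW (hM : SL M) (i : V) (g : HK (adj M)) : ∃ w, linW hM w (om i) = cl g i := by
  induction g using red_induction hM with
  | h1 => exact ⟨1, by rw [map_one, cl_one]; rfl⟩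
  | h2 g k hp ih =>
    obtain ⟨w, hw⟩ := ih
    exact ⟨M.simple k * w, by rw [linW_mul_simple, hw, PP_cl hp]⟩

theorem exists_redW (hM : SL M) (w : M.Group) :
    ∃ l, Red (gr M) l ∧ (l.map M.simple).prod = w := by
  refine W_induction (p := fun w => ∃ l, Red (gr M) l ∧ (l.map M.simple).prod = w) w
    ⟨[], trivial, rfl⟩ ?_
  rintro w k ⟨l, hr, hl⟩
  rcases pos_or_neg (good hM) hr k with h | h
  · exact ⟨k :: l, ⟨hr, h⟩, by rw [List.map_cons, List.prod_cons, hl]⟩
  · obtain ⟨l1, -, h2, -, h4⟩ := exch (good hM) hr h
    refine ⟨l1, h2, ?_⟩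
    rw [prod_ff, prod_ff] at h4
    have h5 : (l.map M.simple).prod = M.simple k * (l1.map M.simple).prod := congrArg Prod.snd h4
    rw [← hl, h5, ← mul_assoc, simple_sq', one_mul]

theorem col_linW (hM : SL M) (l : List V) (i : V) :
    col (gr M) l i = linW hM (l.map M.simple).prod (om i) := by
  rw [(good hM).col_eq, prod_ff]; rfl

theorem stab (hM : SL M) (i : V) (w : M.Group) : linW hM w (om i) = om i ↔ w ∈ parW M i := by
  constructor
  · intro h
    obtain ⟨l, hr, rfl⟩ := exists_redW hM w
    rw [← col_linW] at h
    induction l with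
    | nil => exact (parW M i).one_mem
    | cons k l ih =>
      rw [col_cons] at h
      have h1 : col (gr M) l i = rfl' (gr M) k (om i) := by rw [← h, rfl_rfl]
      have h2 := hr.2.1 i
      rw [h1, rfl_self] at h2
      have hk : k ≠ i := by
        rintro rfl
        simp [om] at h2
      rw [rfl_zero (om_of_ne hk)] at h1
      rw [List.map_cons, List.prod_cons]
      exact (parW M i).mul_mem (Subgroup.subset_closure ⟨k, hk, rfl⟩) (ih hr.1 h1)
  · intro h
    induction h using Subgroup.closure_induction with
    | mem x hx =>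
      obtain ⟨j, hj, rfl⟩ := hx
      rw [linW_simple]
      exact rfl_zero (om_of_ne hj)
    | one => rw [map_one]; rfl
    | mul x y _ _ hx hy =>
      rw [map_mul]
      change linW hM x (linW hM y (om i)) = _
      rw [hy, hx]
    | inv x _ hx =>
      nth_rewrite 1 [← hx]
      change (linW hM x⁻¹ * linW hM x) (om i) = om i
      rw [← map_mul, inv_mul_cancel, map_one]
      rfl

theorem index_eq (hM : SL M) (i : V) : (parW M i).index = Nat.card (XX M i) := by
  let _ : MulAction M.Group (V → ℤ) := MulAction.ofEndHom (linW hM)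
  have hsm : ∀ (w : M.Group) (x : V → ℤ), w • x = linW hM w x := fun w x => rfl
  have h1 : MulAction.stabilizer M.Group (om i : V → ℤ) = parW M i := by
    ext w
    rw [MulAction.mem_stabilizer_iff, hsm, stab hM]
  have h2 : MulAction.orbit M.Group (om i : V → ℤ) = XX M i := by
    ext x
    constructor
    · rintro ⟨w, rfl⟩
      exact linW_mem hM i w
    · rintro ⟨g, rfl⟩
      obtain ⟨w, hw⟩ := mem_linW hM i g
      exact ⟨w, hw⟩
  rw [← h1, MulAction.index_stabilizer, h2, Nat.card_coe_set_eq]

theorem finite_XX (hM : SL M) [Finite M.Group] (i : V) : (XX M i).Finite := by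
  have : XX M i ⊆ Set.range (fun w : M.Group => linW hM w (om i)) := by
    rintro _ ⟨g, rfl⟩
    obtain ⟨w, hw⟩ := mem_linW hM i g
    exact ⟨w, hw⟩
  exact (Set.finite_range _).subset this

theorem finite_HK (hM : SL M) [Finite V] [Finite M.Group] : Finite (HK (adj M)) := by
  have h : ∀ i, Finite (XX M i) := fun i => (finite_XX hM i).to_subtype
  let F : HK (adj M) → (∀ i : V, XX M i) := fun g i => ⟨cl g i, g, rfl⟩
  refine Finite.of_injective F fun g h e => ext_cl hM fun i => ?_
  exact congrArg Subtype.val (congrFun e i)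

end Pool.Agent.H83.HK
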