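import Pool.Agent.H83.HK.Up

set_option autoImplicit false
set_option linter.dupNamespace false

/-!
# The lower bound
-/

namespace Pool.Agent.H83.HK

open Pool.Agent.H3.HK
open scoped Classical

variable {V : Type} {M : CoxeterMatrix V}

theorem fix_all {x : V → ℤ} (hx : ∀ k, x k ≤ 0) (g : HK (adj M)) : actM M g x = x := by
  obtain ⟨l, rfl⟩ := exists_wd g
  induction l with
  | nil => rw [wd_nil, map_one]; rfl
  | cons k l ih =>
    rw [wd_cons, act_mul, ih, actM_gen]
    exact push_neg (hx k)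

theorem eq_z {w : HK (adj M)} (hw : LZ w) {i : V} {x : V → ℤ} (hx : x ∈ XX M i)
    (h : ∀ k, x k ≤ 0) : x = cl w i := by
  obtain ⟨g, rfl⟩ := hx
  have h1 := fix_all h w
  have h2 : cl (w * g) i = cl g i := by
    rw [cl, act_mul]; exact h1
  rw [hw.mul_right] at h2
  exact h2.symm

/-- the orbit is closed under the reflections -/
theorem rfl_mem (hM : SL M) {i : V} {x : V → ℤ} (hx : x ∈ XX M i) (j : V) :
    rfl' (gr M) j x ∈ XX M i := by
  obtain ⟨g, rfl⟩ := hx
  rcases PP_or_NN hM g j with h | h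
  · exact ⟨gen (adj M) j * g, PP_cl h i⟩
  · obtain ⟨g1, h1, h2, -⟩ := NN_exch hM h
    exact ⟨g1, cl_exch hM h1 h2 i⟩

theorem rfl_flip {k : V} {x y : V → ℤ} (h : rfl' (gr M) k x = y) : x = rfl' (gr M) k y := by
  rw [← h, rfl_rfl]

section eigen

variable {K : Type} [Field K] {w : HK (adj M)} [Fintype (BB w)]

theorem mat_apply (j : V) (y : BB w → K) (c : BB w) :
    (mat K (w := w) (gen (adj M) j)).mulVec y c =
      ∑ b, if c.1 = b.1 ∧ push (gr M) j b.2.1 = c.2.1 then y b else 0 := by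
  rw [Matrix.mulVec, dotProduct]
  refine Finset.sum_congr rfl fun b _ => ?_
  rw [mat, actM_gen]
  change (if c.1 = b.1 ∧ push (gr M) j b.2.1 = c.2.1 then (1 : K) else 0) * y b = _
  split_ifs <;> simp

theorem coef_pos (j : V) (y : BB w → K) (c : BB w) (h : 0 < c.2.1 j) :
    (mat K (w := w) (gen (adj M) j)).mulVec y c = 0 := by
  rw [mat_apply]
  refine Finset.sum_eq_zero fun b _ => if_neg ?_
  rintro ⟨-, h2⟩
  have := push_self (Γ := gr M) j b.2.1
  rw [h2] at this
  omega

theorem coef_zero (j : V) (y : BB w → K) (c : BB w) (h : c.2.1 j = 0) :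
    (mat K (w := w) (gen (adj M) j)).mulVec y c = y c := by
  rw [mat_apply, Finset.sum_eq_single c]
  · rw [if_pos ⟨rfl, push_neg (le_of_eq h)⟩]
  · intro b _ hb
    refine if_neg ?_
    rintro ⟨h1, h2⟩
    rcases le_or_gt (b.2.1 j) 0 with h3 | h3
    · rw [push_neg h3] at h2
      exact hb (BB_ext h1.symm h2)
    · rw [push_pos h3.le] at h2
      have := congrFun h2 j
      rw [rfl_self] at this
      omega
  · intro hh; exact absurd (Finset.mem_univ c) hh

theorem coef_neg (j : V) (y : BB w → K) (c c' : BB w) (h : c.2.1 j < 0) (h1 : c'.1 = c.1)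
    (h2 : c'.2.1 = rfl' (gr M) j c.2.1) :
    (mat K (w := w) (gen (adj M) j)).mulVec y c = y c + y c' := by
  have hne : c ≠ c' := by
    intro t
    have := congrFun h2 j
    rw [← t, rfl_self] at this
    omega
  have hpos : 0 < c'.2.1 j := by
    rw [h2, rfl_self]; omega
  rw [mat_apply, ← Finset.sum_subset (Finset.subset_univ ({c, c'} : Finset (BB w)))]
  · rw [Finset.sum_pair hne, if_pos ⟨rfl, push_neg h.le⟩, if_pos ⟨h1.symm, by
      rw [push_pos hpos.le, h2, rfl_rfl]⟩]
  · intro b _ hb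
    refine if_neg ?_
    rintro ⟨h3, h4⟩
    rw [Finset.mem_insert, Finset.mem_singleton, not_or] at hb
    rcases le_or_gt (b.2.1 j) 0 with h5 | h5
    · rw [push_neg h5] at h4
      exact hb.1 (BB_ext h3.symm h4)
    · rw [push_pos h5.le] at h4
      refine hb.2 (BB_ext (h3.symm.trans h1.symm) ?_)
      rw [h2, ← h4, rfl_rfl]

/-- the common eigenvectors are multiples of one socle vector -/
theorem eigen (hM : SL M) (hw : LZ w) {σ : V → V} (hσ : Function.Injective σ)
    (hz : ∀ i, cl w i = - om (σ i)) (J : V → Prop) (y : BB w → K)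
    (h1 : ∀ j, J j → (mat K (w := w) (gen (adj M) j)).mulVec y = 0)
    (h0 : ∀ j, ¬ J j → (mat K (w := w) (gen (adj M) j)).mulVec y = y) (c : BB w) (hc : y c ≠ 0) :
    (∀ b, y b ≠ 0 → b = c) ∧ c.2.1 = rfl' (gr M) (σ c.1) (cl w c.1) := by
  -- S1
  have s1 : ∀ b, y b ≠ 0 → ∀ j, ¬ J j → b.2.1 j ≤ 0 := by
    intro b hb j hj
    by_contra hcon
    have := congrFun (h0 j hj) b
    rw [coef_pos j y b (by omega)] at this
    exact hb this.symm
  have s1' : ∀ b, y b ≠ 0 → ∀ j, J j → b.2.1 j ≠ 0 := by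
    intro b hb j hj h
    have := congrFun (h1 j hj) b
    rw [coef_zero j y b h] at this
    exact hb this
  -- S2
  have s2 : ∀ b b', y b ≠ 0 → ∀ j, J j → b'.1 = b.1 → b'.2.1 = rfl' (gr M) j b.2.1 → y b' ≠ 0 := by
    intro b b' hb j hj e1 e2
    rcases lt_trichotomy (b.2.1 j) 0 with h | h | h
    · have := congrFun (h1 j hj) b
      rw [coef_neg j y b b' h e1 e2] at this
      intro hh
      rw [hh, add_zero] at this
      exact hb this
    · exact absurd h (s1' b hb j hj)
    · have h3 : b'.2.1 j < 0 := by rw [e2, rfl_self]; omega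
      have := congrFun (h1 j hj) b'
      rw [coef_neg j y b' b h3 e1.symm (by rw [e2, rfl_rfl])] at this
      intro hh
      rw [hh, zero_add] at this
      exact hb this
  have nonpos : ∀ b : BB w, ¬ ∀ k, b.2.1 k ≤ 0 := fun b h =>
    b.2.2.2 (eq_z hw b.2.2.1 h)
  -- S3
  have s3 : ∀ b, y b ≠ 0 → J (σ b.1) ∧ ∃ b', b'.1 = b.1 ∧ y b' ≠ 0 ∧
      b'.2.1 = rfl' (gr M) (σ b.1) (cl w b.1) := by
    intro b0 hb0
    -- choose an element of maximal height
    let ht : BB w → ℕ := fun b => sInf {n | ∃ g : HK (adj M), len hM g = n ∧ cl g b.1 = b.2.1}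
    have hne : (Finset.univ.filter fun b : BB w => b.1 = b0.1 ∧ y b ≠ 0).Nonempty :=
      ⟨b0, by simp [hb0]⟩
    obtain ⟨b, hb, hmax⟩ := Finset.exists_max_image _ ht hne
    rw [Finset.mem_filter] at hb
    obtain ⟨-, hb1, hb2⟩ := hb
    have hex : ∃ j, 0 < b.2.1 j := by
      by_contra hcon
      push Not at hcon
      exact nonpos b hcon
    obtain ⟨j, hj⟩ := hex
    have hJ : J j := by
      by_contra hcon
      have := s1 b hb2 j hcon
      omega
    have hzz : rfl' (gr M) j b.2.1 = cl w b.1 := by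
      by_contra hcon
      let b' : BB w := ⟨b.1, rfl' (gr M) j b.2.1, rfl_mem hM b.2.2.1 j, hcon⟩
      have hb' : y b' ≠ 0 := s2 b b' hb2 j hJ rfl rfl
      have h3 := hmax b' (by rw [Finset.mem_filter]; exact ⟨Finset.mem_univ _, hb1, hb'⟩)
      -- height of b' is bigger
      have h4 : {n | ∃ g : HK (adj M), len hM g = n ∧ cl g b'.1 = b'.2.1}.Nonempty := by
        obtain ⟨g, hg⟩ := b'.2.2.1
        exact ⟨_, g, rfl, hg⟩
      obtain ⟨g, hg1, hg2⟩ := Nat.sInf_mem h4
      have h5 : NN' g j := by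
        rcases PP_or_NN hM g j with h | h
        · have := h.1 b'.1
          rw [hg2] at this
          have h6 : b'.2.1 j = - b.2.1 j := rfl_self j b.2.1
          omega
        · exact h
      obtain ⟨g1, e1, e2, e3⟩ := NN_exch hM h5
      have h6 : cl g1 b.1 = b.2.1 := by
        rw [cl_exch hM e1 e2]
        change rfl' (gr M) j (cl g b'.1) = _
        rw [hg2]
        exact rfl_rfl j b.2.1
      have h7 : ht b ≤ len hM g1 := Nat.sInf_le ⟨g1, rfl, h6⟩
      have h8 : ht b' = len hM g := hg1.symm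
      omega
    have hjs : j = σ b.1 := by
      by_contra hcon
      have e1 : - b.2.1 j = cl w b.1 j := (rfl_self j b.2.1).symm.trans (congrFun hzz j)
      have e2 : cl w b.1 j = (- om (σ b.1)) j := congrFun (hz b.1) j
      rw [e2] at e1
      simp [om, hcon] at e1
      omega
    rw [← hb1]
    refine ⟨hjs ▸ hJ, b, rfl, hb2, ?_⟩
    rw [← hjs]
    exact rfl_flip hzz
  -- S4
  have s4 : ∀ b, y b ≠ 0 → ∀ k, J k → k = σ b.1 := by
    intro b hb k hk
    obtain ⟨hJs, b', e1, e2, e3⟩ := s3 b hb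
    by_contra hcon
    have zs : cl w b.1 (σ b.1) = -1 := by rw [hz]; simp [om]
    have zk : cl w b.1 k = 0 := by rw [hz]; simp [om, hcon]
    by_cases hadj : (gr M).Adj (σ b.1) k
    · have v1 : b'.2.1 k = -1 := by rw [e3, rfl_adj hadj, zs, zk]; rfl
      have v2 : b'.2.1 (σ b.1) = 1 := by rw [e3, rfl_self, zs]; rfl
      have hne : rfl' (gr M) k b'.2.1 ≠ cl w b'.1 := by
        intro t
        have := congrFun t k
        rw [rfl_self, v1, e1, zk] at this
        omega
      let b2 : BB w := ⟨b'.1, rfl' (gr M) k b'.2.1, rfl_mem hM b'.2.2.1 k, hne⟩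
      have h3 : y b2 ≠ 0 := s2 b' b2 e2 k hk rfl rfl
      refine s1' b2 h3 (σ b.1) hJs ?_
      change rfl' (gr M) k b'.2.1 (σ b.1) = 0
      rw [rfl_adj hadj.symm, v1, v2]; rfl
    · refine s1' b' e2 k hk ?_
      rw [e3, rfl_not hcon hadj, zk]
  -- S5
  have s5 : ∀ b, y b ≠ 0 → b.2.1 = rfl' (gr M) (σ b.1) (cl w b.1) := by
    intro b hb
    have hJs := (s3 b hb).1
    have hle : ∀ b', y b' ≠ 0 → b'.1 = b.1 → ∀ k, k ≠ σ b.1 → b'.2.1 k ≤ 0 := by
      intro b' hb' e k hk
      exact s1 b' hb' k fun hJ => hk (by rw [s4 b' hb' k hJ, e])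
    have hs : 0 < b.2.1 (σ b.1) := by
      by_contra hcon
      refine nonpos b fun k => ?_
      by_cases hk : k = σ b.1
      · rw [hk]; omega
      · exact hle b hb rfl k hk
    have : rfl' (gr M) (σ b.1) b.2.1 = cl w b.1 := by
      by_contra hcon
      let b' : BB w := ⟨b.1, rfl' (gr M) (σ b.1) b.2.1, rfl_mem hM b.2.2.1 _, hcon⟩
      have hb' : y b' ≠ 0 := s2 b b' hb _ hJs rfl rfl
      refine nonpos b' fun k => ?_
      by_cases hk : k = σ b.1
      · have : b'.2.1 (σ b.1) = - b.2.1 (σ b.1) := rfl_self _ _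
        rw [hk]; omega
      · exact hle b' hb' rfl k hk
    exact rfl_flip this
  refine ⟨fun b hb => ?_, s5 c hc⟩
  have e : b.1 = c.1 := hσ (s4 c hc _ (s3 b hb).1)
  refine BB_ext e ?_
  rw [s5 b hb, s5 c hc, e]

end eigen

end Pool.Agent.H83.HK
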