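import Pool.Agent.H83.HK.Game
import Pool.Agent.H3.HK.Defs

set_option autoImplicit false
set_option linter.dupNamespace false

/-!
# The monoid and the Coxeter group of a simply laced Coxeter matrix
-/

namespace Pool.Agent.H83.HK

open Pool.Agent.H3.HK
open scoped Classical

variable {V : Type}

/-- the relation `M i j = 3` -/
def adj (M : CoxeterMatrix V) (i j : V) : Prop := M i j = 3

/-- the graph of a Coxeter matrix (edges: entries `3`) -/
def gr (M : CoxeterMatrix V) : SimpleGraph V where
  Adj i j := adj M i j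
  symm := ⟨fun i j (h : M i j = 3) => show M j i = 3 by rw [M.symmetric j i]; exact h⟩
  loopless := ⟨fun i (h : M i i = 3) => by rw [M.diagonal i] at h; omega⟩

/-- simply laced -/
def SL (M : CoxeterMatrix V) : Prop := ∀ i j, i ≠ j → M i j = 2 ∨ M i j = 3

variable {M : CoxeterMatrix V}

theorem gr_adj {i j : V} : (gr M).Adj i j ↔ M i j = 3 := Iff.rfl

/-! ### the group -/

/-- the reflection as an element of the monoid of functions -/
noncomputable def sE (M : CoxeterMatrix V) (j : V) : Function.End (V → ℤ) :=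
  fun x => rfl' (gr M) j x

/-- the move as an element of the monoid of functions -/
noncomputable def pE (M : CoxeterMatrix V) (j : V) : Function.End (V → ℤ) :=
  fun x => push (gr M) j x

theorem sE_sq (j : V) : sE M j * sE M j = 1 := by
  funext x; exact rfl_rfl j x

theorem sE_comm {i j : V} (h : i ≠ j) (h2 : M i j = 2) : sE M i * sE M j = sE M j * sE M i := by
  funext x
  exact rfl_comm h (fun t => by have t' : M i j = 3 := t; omega) x

theorem sE_braid {i j : V} (h : M i j = 3) :
    sE M i * sE M j * sE M i = sE M j * sE M i * sE M j := by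
  funext x
  exact rfl_braid (gr_adj.2 h) x

theorem lift_aux (hM : SL M) : M.IsLiftable (sE M) := by
  intro i j
  by_cases h : i = j
  · subst h
    rw [M.diagonal, pow_one, sE_sq]
  rcases hM i j h with h2 | h3
  · rw [h2]
    calc (sE M i * sE M j) ^ 2 = (sE M i * sE M j) * (sE M i * sE M j) := pow_two _
      _ = (sE M i * sE M j) * (sE M j * sE M i) := by rw [sE_comm h h2]
      _ = sE M i * (sE M j * sE M j) * sE M i := by simp only [mul_assoc]
      _ = 1 := by rw [sE_sq, mul_one, sE_sq]
  · rw [h3]
    calc (sE M i * sE M j) ^ 3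
        = (sE M i * sE M j * sE M i) * (sE M j * sE M i * sE M j) := by
          simp only [pow_succ, pow_zero, one_mul, mul_assoc]
      _ = (sE M i * sE M j * sE M i) * (sE M i * sE M j * sE M i) := by rw [sE_braid h3]
      _ = sE M i * (sE M j * (sE M i * sE M i) * sE M j) * sE M i := by simp only [mul_assoc]
      _ = 1 := by rw [sE_sq, mul_one, sE_sq, mul_one, sE_sq]

/-- the linear action of the Coxeter group -/
noncomputable def linW (hM : SL M) : M.Group →* Function.End (V → ℤ) :=
  M.toCoxeterSystem.lift ⟨sE M, lift_aux hM⟩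

theorem linW_simple (hM : SL M) (j : V) : linW hM (M.simple j) = sE M j :=
  M.toCoxeterSystem.lift_apply_simple (lift_aux hM) j

theorem simple_sq' (i : V) : M.simple i * M.simple i = 1 :=
  M.toCoxeterSystem.simple_mul_simple_self i

theorem simple_inv' (i : V) : (M.simple i)⁻¹ = M.simple i :=
  M.toCoxeterSystem.inv_simple i

theorem simple_comm {i j : V} (h : M i j = 2) :
    M.simple i * M.simple j = M.simple j * M.simple i := by
  have h1 : (M.simple i * M.simple j) ^ M i j = 1 := M.toCoxeterSystem.simple_mul_simple_pow i j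
  rw [h, pow_two] at h1
  rw [eq_inv_of_mul_eq_one_left h1, mul_inv_rev, simple_inv', simple_inv']

theorem simple_braid {i j : V} (h : M i j = 3) :
    M.simple i * M.simple j * M.simple i = M.simple j * M.simple i * M.simple j := by
  have h1 : (M.simple i * M.simple j) ^ M i j = 1 := M.toCoxeterSystem.simple_mul_simple_pow i j
  rw [h] at h1
  have h2 : (M.simple i * M.simple j * M.simple i) * (M.simple j * M.simple i * M.simple j) = 1 := by
    rw [← h1]; simp only [pow_succ, pow_zero, one_mul, mul_assoc]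
  rw [eq_inv_of_mul_eq_one_left h2]
  simp only [mul_inv_rev, simple_inv', mul_assoc]

/-! ### the monoid -/

theorem gen_braid {i j : V} (h : M i j = 3) :
    gen (adj M) i * gen (adj M) j * gen (adj M) i =
      gen (adj M) j * gen (adj M) i * gen (adj M) j :=
  rel_eq (Rel.braid i j (gr_adj.2 h : (gr M).Adj i j).ne h ((gr_adj.2 h : (gr M).Adj i j).symm))

/-- the action of the monoid by the numbers game -/
noncomputable def actM (M : CoxeterMatrix V) : HK (adj M) →* Function.End (V → ℤ) :=
  PresentedMonoid.lift (rels := Rel (adj M)) (pE M) (by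
    intro a b hab
    cases hab with
    | idem i =>
      simp only [map_mul, FreeMonoid.lift_eval_of]
      funext x; exact push_idem i x
    | comm i j hn h1 h2 =>
      simp only [map_mul, FreeMonoid.lift_eval_of]
      funext x; exact push_comm hn h1 x
    | braid i j hn h1 h2 =>
      simp only [map_mul, FreeMonoid.lift_eval_of]
      funext x; exact push_braid h1 x
    | arrowL i j hn h1 h2 => exact absurd ((gr M).adj_symm h1) h2
    | arrowR i j hn h1 h2 => exact absurd ((gr M).adj_symm h1) h2)

theorem actM_gen (j : V) : actM M (gen (adj M) j) = pE M j :=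
  PresentedMonoid.lift_of _ _

/-- the monoid in which the core lemma is applied -/
abbrev GG (M : CoxeterMatrix V) : Type := HK (adj M) × M.Group

/-- its generators -/
def ff (M : CoxeterMatrix V) (j : V) : GG M := (gen (adj M) j, M.simple j)

theorem good (hM : SL M) : Good (gr M) (ff M) ((linW hM).comp (MonoidHom.snd _ _)) where
  comm := fun j k hn h => by
    have h' : ¬ (gr M).Adj k j := fun t => h t.symm
    refine Prod.ext (gen_comm hn h h') (simple_comm ?_)
    rcases hM j k hn with h2 | h3
    · exact h2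
    · exact absurd h3 h
  braid := fun j k h => Prod.ext (gen_braid h) (simple_braid h)
  act := fun j x => by
    change linW hM (M.simple j) x = _
    rw [linW_simple]
    rfl

theorem prod_ff (l : List V) :
    (l.map (ff M)).prod = (wd (adj M) l, (l.map M.simple).prod) := by
  induction l with
  | nil => rfl
  | cons k l ih =>
    rw [List.map_cons, List.prod_cons, ih, wd_cons, List.map_cons, List.prod_cons]
    rfl

/-- column `i` of an element -/
noncomputable def cl (g : HK (adj M)) (i : V) : V → ℤ := actM M g (om i)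

theorem cl_one (i : V) : cl (1 : HK (adj M)) i = om i := by
  rw [cl, map_one]; rfl

theorem cl_gen_mul (k : V) (g : HK (adj M)) (i : V) :
    cl (gen (adj M) k * g) i = push (gr M) k (cl g i) := by
  rw [cl, map_mul, actM_gen]; rfl

theorem cl_wd {l : List V} (hr : Red (gr M) l) (i : V) : cl (wd (adj M) l) i = col (gr M) l i := by
  induction l with
  | nil => rw [wd_nil, cl_one, col_nil]
  | cons k l ih => rw [wd_cons, cl_gen_mul, ih hr.1, col_cons, push_pos (hr.2.1 i)]

theorem exists_red (hM : SL M) (g : HK (adj M)) : ∃ l, Red (gr M) l ∧ wd (adj M) l = g := by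
  obtain ⟨w, rfl⟩ := exists_wd g
  induction w with
  | nil => exact ⟨[], trivial, rfl⟩
  | cons k w ih =>
    obtain ⟨l, hr, hl⟩ := ih
    rcases pos_or_neg (good hM) hr k with h | h
    · exact ⟨k :: l, ⟨hr, h⟩, by rw [wd_cons, hl, wd_cons]⟩
    · obtain ⟨l1, -, -, -, h4⟩ := exch (good hM) hr h
      refine ⟨l, hr, ?_⟩
      rw [prod_ff, prod_ff] at h4
      have h5 : wd (adj M) l = gen (adj M) k * wd (adj M) l1 := congrArg Prod.fst h4
      rw [wd_cons, ← hl, h5, ← mul_assoc, gen_idem]

/-- the length -/
noncomputable def len (hM : SL M) (g : HK (adj M)) : ℕ := (exists_red hM g).choose.length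

theorem len_wd (hM : SL M) {l : List V} (hr : Red (gr M) l) : len hM (wd (adj M) l) = l.length := by
  have h := (exists_red hM (wd (adj M) l)).choose_spec
  exact (red_unique (good hM) _ _ _ rfl h.1 hr fun i => by
    rw [← cl_wd h.1, ← cl_wd hr, h.2]).1

/-- row `j` is nonnegative -/
def PP (g : HK (adj M)) (j : V) : Prop := (∀ i, 0 ≤ cl g i j) ∧ ∃ i, 0 < cl g i j

/-- row `j` is nonpositive -/
def NN' (g : HK (adj M)) (j : V) : Prop := (∀ i, cl g i j ≤ 0) ∧ ∃ i, cl g i j < 0

theorem PP_wd {l : List V} (hr : Red (gr M) l) (j : V) : PP (wd (adj M) l) j ↔ Pos (gr M) l j := by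
  simp only [PP, Pos, cl_wd hr]

theorem NN_wd {l : List V} (hr : Red (gr M) l) (j : V) : NN' (wd (adj M) l) j ↔ Neg (gr M) l j := by
  simp only [NN', Neg, cl_wd hr]

theorem PP_or_NN (hM : SL M) (g : HK (adj M)) (j : V) : PP g j ∨ NN' g j := by
  obtain ⟨l, hr, rfl⟩ := exists_red hM g
  rw [PP_wd hr, NN_wd hr]
  exact pos_or_neg (good hM) hr j

theorem not_PP_NN {g : HK (adj M)} {j : V} (h : PP g j) (h' : NN' g j) : False := by
  obtain ⟨i, hi⟩ := h.2
  exact absurd (h'.1 i) (not_le.2 hi)

theorem NN_exch (hM : SL M) {g : HK (adj M)} {j : V} (h : NN' g j) :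
    ∃ g1, g = gen (adj M) j * g1 ∧ PP g1 j ∧ len hM g1 + 1 = len hM g := by
  obtain ⟨l, hr, rfl⟩ := exists_red hM g
  rw [NN_wd hr] at h
  obtain ⟨l1, h1, h2, h3, h4⟩ := exch (good hM) hr h
  rw [prod_ff, prod_ff] at h4
  exact ⟨wd (adj M) l1, congrArg Prod.fst h4, (PP_wd h2 j).2 h3, by
    rw [len_wd hM h2, len_wd hM hr, h1]⟩

theorem NN_fix (hM : SL M) {g : HK (adj M)} {j : V} (h : NN' g j) : gen (adj M) j * g = g := by
  obtain ⟨g1, h1, -, -⟩ := NN_exch hM h
  rw [h1, ← mul_assoc, gen_idem]

theorem PP_cl {g : HK (adj M)} {j : V} (h : PP g j) (i : V) :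
    cl (gen (adj M) j * g) i = rfl' (gr M) j (cl g i) := by
  rw [cl_gen_mul, push_pos (h.1 i)]

theorem PP_NN {g : HK (adj M)} {j : V} (h : PP g j) : NN' (gen (adj M) j * g) j := by
  refine ⟨fun i => ?_, ?_⟩
  · rw [PP_cl h, rfl_self]; have := h.1 i; omega
  · obtain ⟨i, hi⟩ := h.2
    exact ⟨i, by rw [PP_cl h, rfl_self]; omega⟩

theorem PP_len (hM : SL M) {g : HK (adj M)} {j : V} (h : PP g j) :
    len hM (gen (adj M) j * g) = len hM g + 1 := by
  obtain ⟨l, hr, rfl⟩ := exists_red hM g
  rw [PP_wd hr] at h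
  rw [← wd_cons, len_wd hM (l := j :: l) ⟨hr, h⟩, len_wd hM hr, List.length_cons]

theorem ext_cl (hM : SL M) {g h : HK (adj M)} (e : ∀ i, cl g i = cl h i) : g = h := by
  obtain ⟨l, hr, rfl⟩ := exists_red hM g
  obtain ⟨l', hr', rfl⟩ := exists_red hM h
  have := (red_unique (good hM) _ l l' rfl hr hr' fun i => by
    rw [← cl_wd hr, ← cl_wd hr', e]).2
  rw [prod_ff, prod_ff] at this
  exact congrArg Prod.fst this

theorem PP_cancel (hM : SL M) {g h : HK (adj M)} {j : V} (hg : PP g j) (hh : PP h j)
    (e : gen (adj M) j * g = gen (adj M) j * h) : g = h := by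
  refine ext_cl hM fun i => ?_
  have := PP_cl hg i
  rw [e, PP_cl hh i] at this
  have := congrArg (rfl' (gr M) j) this
  rw [rfl_rfl, rfl_rfl] at this
  exact this.symm

theorem len_gen_le (hM : SL M) (g : HK (adj M)) (j : V) :
    (gen (adj M) j * g = g) ∨ (PP g j ∧ len hM (gen (adj M) j * g) = len hM g + 1) := by
  rcases PP_or_NN hM g j with h | h
  · exact Or.inr ⟨h, PP_len hM h⟩
  · exact Or.inl (NN_fix hM h)

theorem cl_exch (hM : SL M) {g g1 : HK (adj M)} {j : V} (h1 : g = gen (adj M) j * g1)
    (h : PP g1 j) (i : V) : cl g1 i = rfl' (gr M) j (cl g i) := by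
  rw [h1, PP_cl h, rfl_rfl]

theorem gen_fix_iff (hM : SL M) {g : HK (adj M)} {j : V} : gen (adj M) j * g = g ↔ NN' g j := by
  refine ⟨fun h => ?_, NN_fix hM⟩
  rcases PP_or_NN hM g j with h1 | h1
  · have := PP_len hM h1
    rw [h] at this
    omega
  · exact h1

/-- induction along reduced products -/
theorem red_induction (hM : SL M) {p : HK (adj M) → Prop} (h1 : p 1)
    (h2 : ∀ g k, PP g k → p g → p (gen (adj M) k * g)) (g : HK (adj M)) : p g := by
  obtain ⟨l, hr, rfl⟩ := exists_red hM g
  induction l with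
  | nil => exact h1
  | cons k l ih =>
    rw [wd_cons]
    exact h2 _ _ ((PP_wd hr.1 k).2 hr.2) (ih hr.1)

end Pool.Agent.H83.HK
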