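import Pool.Agent.H83.HK.Mon

set_option autoImplicit false
set_option linter.dupNamespace false

/-!
# Orbits of the fundamental weights, zeros of the monoid and of its parabolic submonoids
-/

namespace Pool.Agent.H83.HK

open Pool.Agent.H3.HK
open scoped Classical

variable {V : Type} {M : CoxeterMatrix V}

/-! ### reversal -/

/-- word reversal -/
noncomputable def rev (M : CoxeterMatrix V) : HK (adj M) →* (HK (adj M))ᵐᵒᵖ :=
  PresentedMonoid.lift (rels := Rel (adj M)) (fun j => MulOpposite.op (gen (adj M) j)) (by
    intro a b hab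
    cases hab with
    | idem i =>
      simp only [map_mul, FreeMonoid.lift_eval_of]
      rw [← MulOpposite.op_mul, gen_idem]
    | comm i j hn h1 h2 =>
      simp only [map_mul, FreeMonoid.lift_eval_of]
      rw [← MulOpposite.op_mul, ← MulOpposite.op_mul, gen_comm hn h1 h2]
    | braid i j hn h1 h2 =>
      simp only [map_mul, FreeMonoid.lift_eval_of]
      simp only [← MulOpposite.op_mul]
      rw [← mul_assoc, ← mul_assoc, gen_braid h1]
    | arrowL i j hn h1 h2 => exact absurd ((gr M).adj_symm h1) h2
    | arrowR i j hn h1 h2 => exact absurd ((gr M).adj_symm h1) h2)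

theorem rev_gen (j : V) : rev M (gen (adj M) j) = MulOpposite.op (gen (adj M) j) :=
  PresentedMonoid.lift_of _ _

/-- the reversed element -/
noncomputable def rv (g : HK (adj M)) : HK (adj M) := (rev M g).unop

theorem rv_one : rv (1 : HK (adj M)) = 1 := by rw [rv, map_one]; rfl

theorem rv_gen_mul (j : V) (g : HK (adj M)) : rv (gen (adj M) j * g) = rv g * gen (adj M) j := by
  rw [rv, map_mul, rev_gen]; rfl

/-! ### the zero -/

/-- `w` is fixed by all generators -/
def LZ (w : HK (adj M)) : Prop := ∀ j, gen (adj M) j * w = w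

theorem exists_LZ (hM : SL M) [Finite (HK (adj M))] : ∃ w : HK (adj M), LZ w := by
  obtain ⟨w, hw⟩ := Finite.exists_max (fun g : HK (adj M) => len hM g)
  refine ⟨w, fun j => ?_⟩
  rcases len_gen_le hM w j with h | ⟨-, h⟩
  · exact h
  · have := hw (gen (adj M) j * w)
    omega

theorem LZ.mul {w : HK (adj M)} (h : LZ w) (g : HK (adj M)) : g * w = w := by
  obtain ⟨l, rfl⟩ := exists_wd g
  induction l with
  | nil => simp
  | cons k l ih => rw [wd_cons, mul_assoc, ih, h k]

theorem LZ.rv_mul_gen {w : HK (adj M)} (h : LZ w) (j : V) : rv w * gen (adj M) j = rv w := by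
  rw [← rv_gen_mul, h j]

theorem LZ.rv_mul {w : HK (adj M)} (h : LZ w) (g : HK (adj M)) : rv w * g = rv w := by
  obtain ⟨l, rfl⟩ := exists_wd g
  induction l with
  | nil => simp
  | cons k l ih => rw [wd_cons, ← mul_assoc, h.rv_mul_gen, ih]

theorem LZ.rv_eq {w : HK (adj M)} (h : LZ w) : rv w = w := by
  rw [← h.rv_mul w, h.mul]

theorem LZ.mul_right {w : HK (adj M)} (h : LZ w) (g : HK (adj M)) : w * g = w := by
  have := h.rv_mul g
  rwa [h.rv_eq] at this

/-! ### linearity on the dominant cone -/

theorem rfl_neg (k : V) (x : V → ℤ) : rfl' (gr M) k (-x) = - rfl' (gr M) k x := by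
  funext m
  by_cases h : m = k
  · subst h; simp [rfl']
  · by_cases h' : (gr M).Adj k m
    · simp [rfl', h, h']; ring
    · simp [rfl', h, h']

theorem act_lin (hM : SL M) [Fintype V] (g : HK (adj M)) : ∀ x : V → ℤ, (∀ j, 0 ≤ x j) →
    ∀ k, actM M g x k = ∑ i, x i * cl g i k := by
  induction g using red_induction hM with
  | h1 =>
    intro x hx k
    rw [map_one]
    change x k = _
    rw [Finset.sum_eq_single k]
    · rw [cl_one]; simp [om]
    · intro i _ hi
      rw [cl_one, om, if_neg (fun t => hi t.symm), mul_zero]
    · intro h; exact absurd (Finset.mem_univ k) h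
  | h2 g m hp ih =>
    intro x hx k
    have e : actM M (gen (adj M) m * g) x = push (gr M) m (actM M g x) := by
      rw [map_mul, actM_gen]; rfl
    have hpos : 0 ≤ actM M g x m := by
      rw [ih x hx]
      exact Finset.sum_nonneg fun i _ => mul_nonneg (hx i) (hp.1 i)
    rw [e, push_pos hpos]
    simp only [PP_cl hp]
    by_cases h : k = m
    · subst h
      rw [rfl_self, ih x hx, ← Finset.sum_neg_distrib]
      refine Finset.sum_congr rfl fun i _ => ?_
      rw [rfl_self]; ring
    · by_cases h' : (gr M).Adj m k
      · rw [rfl_adj h', ih x hx, ih x hx, ← Finset.sum_add_distrib]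
        refine Finset.sum_congr rfl fun i _ => ?_
        rw [rfl_adj h']; ring
      · rw [rfl_not h h', ih x hx]
        refine Finset.sum_congr rfl fun i _ => ?_
        rw [rfl_not h h']

theorem act_undo (hM : SL M) [Fintype V] (g : HK (adj M)) : ∀ x : V → ℤ, (∀ j, 0 ≤ x j) →
    actM M (rv g) (- actM M g x) = - x := by
  induction g using red_induction hM with
  | h1 =>
    intro x _
    rw [rv_one, map_one]
    rfl
  | h2 g m hp ih =>
    intro x hx
    have hpos : 0 ≤ actM M g x m := by
      rw [act_lin hM g x hx]
      exact Finset.sum_nonneg fun i _ => mul_nonneg (hx i) (hp.1 i)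
    have e : actM M (gen (adj M) m * g) x = rfl' (gr M) m (actM M g x) := by
      rw [map_mul, actM_gen, ← push_pos hpos]; rfl
    have e2 : ∀ y, actM M (rv g * gen (adj M) m) y = actM M (rv g) (push (gr M) m y) := fun y => by
      rw [map_mul, actM_gen]; rfl
    rw [rv_gen_mul, e, e2, push_pos (by rw [Pi.neg_apply, rfl_self]; simpa using hpos),
      rfl_neg, rfl_rfl, ih x hx]

theorem zero_perm (hM : SL M) [Fintype V] {w : HK (adj M)} (h : LZ w) :
    ∃ σ : V → V, Function.Injective σ ∧ ∀ i, cl w i = - om (σ i) := by
  have hneg : ∀ i k, cl w i k ≤ 0 := fun i k => ((gen_fix_iff hM).1 (h k)).1 i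
  have key : ∀ i k, ∑ m, (- cl w i m) * (- cl w m k) = om i k := by
    intro i k
    have h0 : ∀ j, 0 ≤ om i j := fun j => by rw [om]; split_ifs <;> norm_num
    have e1 := act_undo hM w (om i) h0
    rw [h.rv_eq] at e1
    have e2 := act_lin hM w (- cl w i) (fun j => by have := hneg i j; simp; omega) k
    have e3 : actM M w (- cl w i) = - om i := e1
    rw [e3] at e2
    simp only [Pi.neg_apply] at e2
    have e4 : ∑ m, (- cl w i m) * (- cl w m k) = - ∑ m, (- cl w i m) * cl w m k := by
      rw [← Finset.sum_neg_distrib]
      exact Finset.sum_congr rfl fun m _ => by ring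
    rw [e4, ← e2, neg_neg]
  have hterm : ∀ i k m, 0 ≤ (- cl w i m) * (- cl w m k) := fun i k m =>
    mul_nonneg (by have := hneg i m; omega) (by have := hneg m k; omega)
  have hle : ∀ i k m, (- cl w i m) * (- cl w m k) ≤ om i k := fun i k m => by
    rw [← key i k]
    exact Finset.single_le_sum (f := fun m => (- cl w i m) * (- cl w m k))
      (fun m _ => hterm i k m) (Finset.mem_univ m)
  have hex : ∀ i, ∃ m, cl w i = - om m ∧ cl w m = - om i := by
    intro i
    have h1 : ∃ m, 0 < (- cl w i m) * (- cl w m i) := by
      by_contra hcon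
      push Not at hcon
      have := Finset.sum_nonpos (fun m (_ : m ∈ Finset.univ) => hcon m)
      rw [key i i] at this
      simp [om] at this
    obtain ⟨m, hm⟩ := h1
    have a1 : 0 < - cl w i m := by
      rcases (by have := hneg i m; omega : 0 < - cl w i m ∨ - cl w i m = 0) with h | h
      · exact h
      · rw [h, zero_mul] at hm; omega
    have a2 : 0 < - cl w m i := by
      rcases (by have := hneg m i; omega : 0 < - cl w m i ∨ - cl w m i = 0) with h | h
      · exact h
      · rw [h, mul_zero] at hm; omega
    have a3 : (- cl w i m) * (- cl w m i) ≤ 1 := by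
      have := hle i i m
      simpa [om] using this
    have a4 : - cl w m i = 1 := by nlinarith
    have b1 : cl w m = - om i := by
      funext k
      by_cases hk : k = i
      · subst hk
        simp [om]; omega
      · have := hle i k m
        rw [om, if_neg hk] at this
        have h3 : - cl w m k = 0 := by
          rcases (by have := hneg m k; omega : 0 < - cl w m k ∨ - cl w m k = 0) with h | h
          · exact absurd this (not_le.2 (mul_pos a1 h))
          · exact h
        simp [om, hk]; omega
    refine ⟨m, ?_, b1⟩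
    funext k
    have := key m k
    rw [Finset.sum_eq_single i] at this
    · rw [b1] at this
      simp [om] at this ⊢
      omega
    · intro j _ hj
      rw [b1]; simp [om, hj]
    · intro hh; exact absurd (Finset.mem_univ i) hh
  choose σ h1 h2 using hex
  refine ⟨σ, fun i i' hii => ?_, h1⟩
  have := (h2 i).symm.trans ((congrArg (cl w) hii).trans (h2 i'))
  have h3 := congrFun this i
  by_contra hne
  simp [om, hne] at h3

/-! ### parabolic submonoids -/

/-- the submonoid generated by the generators different from `gen i` -/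
def par (M : CoxeterMatrix V) (i : V) : Submonoid (HK (adj M)) :=
  Submonoid.closure (gen (adj M) '' {j | j ≠ i})

theorem gen_mem_par {i j : V} (h : j ≠ i) : gen (adj M) j ∈ par M i :=
  Submonoid.subset_closure ⟨j, h, rfl⟩

theorem om_of_ne {i j : V} (h : j ≠ i) : om i j = 0 := by simp [om, h]

theorem act_par {i : V} {g : HK (adj M)} (h : g ∈ par M i) : actM M g (om i) = om i := by
  induction h using Submonoid.closure_induction with
  | mem x hx =>
    obtain ⟨j, hj, rfl⟩ := hx
    rw [actM_gen]
    exact push_neg (le_of_eq (om_of_ne hj))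
  | one => rw [map_one]; rfl
  | mul x y _ _ hx hy =>
    rw [map_mul]
    change actM M x (actM M y (om i)) = _
    rw [hy, hx]

theorem exists_par_zero (hM : SL M) [Finite (HK (adj M))] (i : V) :
    ∃ p ∈ par M i, ∀ g ∈ par M i, g * p = p := by
  obtain ⟨p, hp⟩ := Finite.exists_max (fun g : par M i => len hM (g : HK (adj M)))
  refine ⟨p, p.2, fun g hg => ?_⟩
  induction hg using Submonoid.closure_induction with
  | mem x hx =>
    obtain ⟨j, hj, rfl⟩ := hx
    rcases len_gen_le hM (p : HK (adj M)) j with h | ⟨-, h⟩
    · exact h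
    · have := hp ⟨gen (adj M) j * p, (par M i).mul_mem (gen_mem_par hj) p.2⟩
      simp only at this
      omega
  | one => rw [one_mul]
  | mul x y _ _ hx hy => rw [mul_assoc, hy, hx]

theorem mem_par (hM : SL M) (i : V) (g : HK (adj M)) : cl g i = om i → g ∈ par M i := by
  induction g using red_induction hM with
  | h1 => exact fun _ => (par M i).one_mem
  | h2 g k hp ih =>
    intro h
    rw [PP_cl hp] at h
    have h1 : cl g i = rfl' (gr M) k (om i) := by rw [← h, rfl_rfl]
    have h2 := hp.1 i
    rw [h1, rfl_self] at h2
    have hk : k ≠ i := by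
      rintro rfl
      simp [om] at h2
    rw [rfl_zero (om_of_ne hk)] at h1
    exact (par M i).mul_mem (gen_mem_par hk) (ih h1)

theorem cl_dom (hM : SL M) (i : V) (g : HK (adj M)) : (∀ k, 0 ≤ cl g i k) → cl g i = om i := by
  induction g using red_induction hM with
  | h1 => exact fun _ => cl_one i
  | h2 g k hp ih =>
    intro h
    rw [PP_cl hp] at h ⊢
    have h1 := h k
    rw [rfl_self] at h1
    have h2 := hp.1 i
    have h3 : cl g i k = 0 := by omega
    rw [rfl_zero h3] at h ⊢
    exact ih h

theorem coset_unique (hM : SL M) (i : V) {p : HK (adj M)} (hp : p ∈ par M i)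
    (hz : ∀ g ∈ par M i, g * p = p) (n : ℕ) : ∀ a b : HK (adj M), len hM a = n →
    a * p = a → b * p = b → cl a i = cl b i → a = b := by
  induction n using Nat.strong_induction_on with
  | _ n ih =>
    intro a b hn ha hb hab
    by_cases hd : ∀ k, 0 ≤ cl a i k
    · have h1 := cl_dom hM i a hd
      have h2 : cl b i = om i := by rw [← hab, h1]
      rw [← ha, ← hb, hz a (mem_par hM i a h1), hz b (mem_par hM i b h2)]
    · push_neg at hd
      obtain ⟨k, hk⟩ := hd
      have step : ∀ c : HK (adj M), c * p = c → cl c i k < 0 → ∃ c1, c = gen (adj M) k * c1 ∧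
          len hM c1 + 1 = len hM c ∧ c1 * p = c1 ∧ cl c1 i = rfl' (gr M) k (cl c i) := by
        intro c hc hck
        have hN : NN' c k := by
          rcases PP_or_NN hM c k with h | h
          · exact absurd (h.1 i) (not_le.2 hck)
          · exact h
        obtain ⟨c1, h1, h2, h3⟩ := NN_exch hM hN
        have h4 := cl_exch hM h1 h2 i
        refine ⟨c1, h1, h3, ?_, h4⟩
        have h5 : cl (c1 * p) i = cl c1 i := by
          rw [cl, map_mul]
          change actM M c1 (actM M p (om i)) = _
          rw [act_par hp]
          rfl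
        have h6 : PP (c1 * p) k := by
          rcases PP_or_NN hM (c1 * p) k with h | h
          · exact h
          · have := h.1 i
            rw [h5, h4, rfl_self] at this
            omega
        refine PP_cancel hM h6 h2 ?_
        rw [← mul_assoc, ← h1, hc]
      obtain ⟨a1, ea, la, pa, ca⟩ := step a ha hk
      obtain ⟨b1, eb, lb, pb, cb⟩ := step b hb (by rwa [← hab])
      rw [ea, eb, ih (len hM a1) (by omega) a1 b1 rfl pa pb (by rw [ca, cb, hab])]

end Pool.Agent.H83.HK
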