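import Pool.Agent.H83.HK.Bound

set_option autoImplicit false
set_option linter.dupNamespace false

/-!
# The value of the degree for unoriented graphs of finite type
-/

namespace Pool.Agent.H83.HK

open Pool.Agent.H3.HK

variable {V : Type} {M : CoxeterMatrix V}

theorem deg_eq {R : Type} [Ring R] {T : V → V → Prop} {n : ℕ}
    (h1 : ∃ φ : HK T →ₙ* Matrix (Fin n) (Fin n) R, Function.Injective φ)
    (h2 : ∀ (d : ℕ) (φ : HK T →ₙ* Matrix (Fin d) (Fin d) R), Function.Injective φ → n ≤ d) :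
    deg R T = n := by
  obtain ⟨φ, hφ⟩ := h1
  refine le_antisymm (sInf_le ⟨n, rfl, φ, hφ⟩) ?_
  refine le_sInf ?_
  rintro _ ⟨d, rfl, ψ, hψ⟩
  exact_mod_cast h2 d ψ hψ

/-- An integral representation gives a complex one. -/
noncomputable def toC' {T : V → V → Prop} {n : ℕ} (φ : HK T →ₙ* Matrix (Fin n) (Fin n) ℤ) :
    HK T →ₙ* Matrix (Fin n) (Fin n) ℂ :=
  (((Int.castRingHom ℂ).mapMatrix : Matrix (Fin n) (Fin n) ℤ →+* Matrix (Fin n) (Fin n) ℂ) :
    Matrix (Fin n) (Fin n) ℤ →ₙ* Matrix (Fin n) (Fin n) ℂ).comp φ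

theorem toC'_injective {T : V → V → Prop} {n : ℕ} {φ : HK T →ₙ* Matrix (Fin n) (Fin n) ℤ}
    (hφ : Function.Injective φ) : Function.Injective (toC' φ) := by
  have hinj : Function.Injective (Matrix.map · (Int.castRingHom ℂ) :
      Matrix (Fin n) (Fin n) ℤ → Matrix (Fin n) (Fin n) ℂ) :=
    Matrix.map_injective (RingHom.injective_int (Int.castRingHom ℂ))
  exact fun x y hxy => hφ (hinj hxy)

theorem value [Fintype V] (hM : SL M) [Finite M.Group] :
    deg ℤ (adj M) = ((∑ i, ((parW M i).index - 1) : ℕ) : ℕ∞) ∧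
      deg ℂ (adj M) = ((∑ i, ((parW M i).index - 1) : ℕ) : ℕ∞) :=
  ⟨deg_eq (exists_rep ℤ hM) fun _ φ hφ => lower (toC' φ) hM (toC'_injective hφ),
    deg_eq (exists_rep ℂ hM) fun _ φ hφ => lower φ hM hφ⟩

end Pool.Agent.H83.HK
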