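import Pool.Agent.H83.HK.Idx

set_option autoImplicit false
set_option linter.dupNamespace false

/-!
# The module spanned by the orbits without their fixed points
-/

namespace Pool.Agent.H83.HK

open Pool.Agent.H3.HK
open scoped Classical

variable {V : Type} {M : CoxeterMatrix V}

/-- the basis: elements of the orbits different from the fixed point -/
def BB (w : HK (adj M)) : Type := Σ i : V, {x : V → ℤ // x ∈ XX M i ∧ x ≠ cl w i}

theorem BB_ext {w : HK (adj M)} {b c : BB w} (h1 : b.1 = c.1) (h2 : b.2.1 = c.2.1) : b = c := by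
  obtain ⟨i, x, hx⟩ := b
  obtain ⟨j, y, hy⟩ := c
  simp only at h1 h2
  subst h1
  subst h2
  rfl

theorem act_XX {i : V} {x : V → ℤ} (hx : x ∈ XX M i) (g : HK (adj M)) : actM M g x ∈ XX M i := by
  obtain ⟨h, rfl⟩ := hx
  exact ⟨g * h, by simp only [cl, map_mul]; rfl⟩

theorem act_z {w : HK (adj M)} (hw : LZ w) (g : HK (adj M)) (i : V) :
    actM M g (cl w i) = cl w i := by
  conv_rhs => rw [← hw.mul g]
  simp only [cl, map_mul]; rfl

theorem act_mul (g h : HK (adj M)) (x : V → ℤ) : actM M (g * h) x = actM M g (actM M h x) := by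
  rw [map_mul]; rfl

theorem om_ne_z (hM : SL M) {w : HK (adj M)} (hw : LZ w) (i : V) : om i ≠ cl w i := by
  intro h
  have := ((gen_fix_iff hM).1 (hw i)).1 i
  rw [← h] at this
  simp [om] at this

theorem om_mem (i : V) : om i ∈ XX M i := ⟨1, cl_one i⟩

variable {R : Type} [CommRing R]

/-- the matrix of an element -/
noncomputable def mat (R : Type) [CommRing R] {w : HK (adj M)} (g : HK (adj M)) :
    Matrix (BB w) (BB w) R :=
  fun c b => if c.1 = b.1 ∧ actM M g b.2.1 = c.2.1 then 1 else 0

theorem mat_mul {w : HK (adj M)} [Fintype (BB w)] (hw : LZ w) (g h : HK (adj M)) :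
    mat R (w := w) (g * h) = mat R (w := w) g * mat R (w := w) h := by
  funext c b
  rw [Matrix.mul_apply]
  by_cases hz : actM M h b.2.1 = cl w b.1
  · rw [Finset.sum_eq_zero]
    · rw [mat, if_neg]
      rintro ⟨h1, h2⟩
      rw [act_mul, hz, act_z hw] at h2
      exact c.2.2.2 (by rw [← h2, h1])
    · intro e _
      rw [mat, mat]
      have : ¬ (e.1 = b.1 ∧ actM M h b.2.1 = e.2.1) := by
        rintro ⟨h1, h2⟩
        exact e.2.2.2 (by rw [← h2, hz, h1])
      rw [if_neg this, mul_zero]
  · let e : BB w := ⟨b.1, actM M h b.2.1, act_XX b.2.2.1 h, hz⟩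
    rw [Finset.sum_eq_single e]
    · have h1 : mat R h e b = 1 := if_pos ⟨rfl, rfl⟩
      rw [h1, mul_one, mat, mat]
      have : (c.1 = b.1 ∧ actM M (g * h) b.2.1 = c.2.1) ↔
          (c.1 = e.1 ∧ actM M g e.2.1 = c.2.1) := by
        rw [act_mul]
      simp only [this]
    · intro e' _ hne
      have : mat R h e' b = 0 := if_neg (by
        rintro ⟨h1, h2⟩
        exact hne (BB_ext h1 h2.symm))
      rw [this, mul_zero]
    · intro hh; exact absurd (Finset.mem_univ e) hh

theorem mat_injective (hM : SL M) [Nontrivial R] {w : HK (adj M)} (hw : LZ w) :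
    Function.Injective (fun g : HK (adj M) => mat R (w := w) g) := by
  intro g h e
  simp only at e
  refine ext_cl hM fun i => ?_
  let b : BB w := ⟨i, om i, om_mem i, om_ne_z hM hw i⟩
  have key : ∀ g h : HK (adj M), mat R (w := w) g = mat R (w := w) h → cl g i ≠ cl w i →
      cl g i = cl h i := by
    intro g h e hg
    let c : BB w := ⟨i, cl g i, ⟨g, rfl⟩, hg⟩
    have h1 : mat R (w := w) g c b = 1 := if_pos ⟨rfl, rfl⟩
    rw [e, mat] at h1
    by_contra hne
    rw [if_neg (fun t => hne t.2.symm)] at h1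
    exact zero_ne_one h1
  by_cases hg : cl g i = cl w i
  · by_cases hh : cl h i = cl w i
    · rw [hg, hh]
    · exact (key h g e.symm hh).symm
  · exact key g h e hg

theorem finite_BB (hM : SL M) [Finite V] [Finite M.Group] (w : HK (adj M)) : Finite (BB w) := by
  have h : ∀ i, Finite {x : V → ℤ // x ∈ XX M i ∧ x ≠ cl w i} := fun i =>
    ((finite_XX hM i).subset fun x hx => hx.1).to_subtype
  exact inferInstanceAs (Finite (Σ i : V, {x : V → ℤ // x ∈ XX M i ∧ x ≠ cl w i}))

theorem card_BB (hM : SL M) [Fintype V] [Finite M.Group] (w : HK (adj M)) :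
    Nat.card (BB w) = ∑ i, ((parW M i).index - 1) := by
  have h : ∀ i, Finite {x : V → ℤ // x ∈ XX M i ∧ x ≠ cl w i} := fun i =>
    ((finite_XX hM i).subset fun x hx => hx.1).to_subtype
  change Nat.card (Σ i : V, {x : V → ℤ // x ∈ XX M i ∧ x ≠ cl w i}) = _
  rw [Nat.card_sigma]
  refine Finset.sum_congr rfl fun i _ => ?_
  rw [index_eq hM]
  have e : {x : V → ℤ | x ∈ XX M i ∧ x ≠ cl w i} = XX M i \ {cl w i} := by
    ext x; simp
  have h2 := Set.ncard_sdiff_singleton_of_mem (s := XX M i) (a := cl w i) ⟨w, rfl⟩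
  rw [← e] at h2
  rw [← Nat.card_coe_set_eq, ← Nat.card_coe_set_eq] at h2
  exact h2

/-- the representation by square matrices of the right size -/
theorem exists_rep (R : Type) [CommRing R] [Nontrivial R] (hM : SL M) [Fintype V]
    [Finite M.Group] :
    ∃ φ : HK (adj M) →ₙ* Matrix (Fin (∑ i, ((parW M i).index - 1)))
      (Fin (∑ i, ((parW M i).index - 1))) R, Function.Injective φ := by
  have hfin : Finite (HK (adj M)) := finite_HK hM
  obtain ⟨w, hw⟩ := exists_LZ hM
  have hB : Finite (BB w) := finite_BB hM w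
  have : Fintype (BB w) := Fintype.ofFinite _
  have hc : Fintype.card (BB w) = ∑ i, ((parW M i).index - 1) := by
    rw [← card_BB hM w, Nat.card_eq_fintype_card]
  let e := Fintype.equivFinOfCardEq hc
  refine ⟨⟨fun g => Matrix.reindex e e (mat R (w := w) g), fun g h => ?_⟩, fun g h eq => ?_⟩
  · rw [mat_mul hw]
    simp only [Matrix.reindex_apply]
    rw [Matrix.submatrix_mul_equiv]
  · exact mat_injective hM hw ((Matrix.reindex e e).injective eq)

end Pool.Agent.H83.HK
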